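import Mathlib
import Pool.Agent.Lib.MP_3f0bb6_co.Codes

/-!
# A non-trivial `(3,3)`-factorisation of `K_12`

For `n = 6` we exhibit a set `D` of `231` of the `10395` perfect matchings of `K_12` such that every
partition of the vertex set into two blocks of size six is refined by exactly five members of `D`.
-/

namespace Pool.Agent.Results.MP_3f0bb6_co.IndexFive

open Pool.Agent.Lib.MP_3f0bb6_co

/-- `M`, a finite set of unordered pairs of vertices, is the edge set of a perfect matching of the
complete graph on `V`: its members are genuine edges (not loops) and every vertex lies in exactly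
one of them. -/
def IsPerfectMatching {V : Type} (M : Finset (Sym2 V)) : Prop :=
  (∀ e ∈ M, ¬ e.IsDiag) ∧ ∀ v : V, ∃! e, e ∈ M ∧ v ∈ e

/-- `M` refines the set partition `P`: every edge of `M` lies inside a single block of `P`. -/
def Refines {V : Type} [DecidableEq V] [Fintype V] (M : Finset (Sym2 V))
    (P : Finpartition (Finset.univ : Finset V)) : Prop :=
  ∀ e ∈ M, ∃ B ∈ P.parts, ∀ v ∈ e, v ∈ B

/-- The set `D` of perfect matchings of `K_{2n}` is a `lam`-factorisation of index `c`: it is
non-empty and every set partition of the `2n` vertices whose block sizes are the doubled parts of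
`lam` is refined by exactly `c` members of `D`, where `c > 0`. -/
def IsFactorisation (n : ℕ) (lam : Multiset ℕ) (D : Finset (Finset (Sym2 (Fin (2 * n))))) (c : ℕ) :
    Prop :=
  D.Nonempty ∧ (∀ M ∈ D, IsPerfectMatching M) ∧ 0 < c ∧
    ∀ P : Finpartition (Finset.univ : Finset (Fin (2 * n))),
      P.parts.val.map Finset.card = lam.map (fun a => 2 * a) →
      {M | M ∈ D ∧ Refines M P}.ncard = c

/-! ### Matchings from involutions -/

/-- The edge set of the matching with partner map `f`. -/
def toM {V : Type} [DecidableEq V] [Fintype V] (f : V → V) : Finset (Sym2 V) :=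
  Finset.univ.image fun v => s(v, f v)

theorem isPerfectMatching_toM {V : Type} [DecidableEq V] [Fintype V] (f : V → V)
    (h1 : ∀ v, f v ≠ v) (h2 : ∀ v, f (f v) = v) : IsPerfectMatching (toM f) := by
  constructor
  · intro e he
    simp only [toM, Finset.mem_image, Finset.mem_univ, true_and] at he
    obtain ⟨v, rfl⟩ := he
    rw [Sym2.mk_isDiag_iff]
    exact fun h => h1 v h.symm
  · intro v
    refine ⟨s(v, f v), ⟨?_, by simp⟩, ?_⟩
    · simp only [toM, Finset.mem_image, Finset.mem_univ, true_and]
      exact ⟨v, rfl⟩
    · rintro e ⟨he, hv⟩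
      simp only [toM, Finset.mem_image, Finset.mem_univ, true_and] at he
      obtain ⟨w, rfl⟩ := he
      rw [Sym2.mem_iff] at hv
      rcases hv with hv | hv
      · rw [hv]
      · rw [hv, h2, Sym2.eq_swap]

theorem toM_injective {V : Type} [DecidableEq V] [Fintype V] (f g : V → V)
    (h2 : ∀ v, g (g v) = v) (h : toM f = toM g) : f = g := by
  funext v
  have h3 : s(v, f v) ∈ toM f := by
    simp only [toM, Finset.mem_image, Finset.mem_univ, true_and]
    exact ⟨v, rfl⟩
  rw [h] at h3
  simp only [toM, Finset.mem_image, Finset.mem_univ, true_and] at h3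
  obtain ⟨w, hw⟩ := h3
  rw [Sym2.eq_iff] at hw
  rcases hw with ⟨e1, e2⟩ | ⟨e1, e2⟩
  · rw [← e2, e1]
  · rw [← e1, ← e2, h2]

/-- For a partition into two blocks. -/
theorem refines_two {V : Type} [DecidableEq V] [Fintype V] (f : V → V) (h2 : ∀ v, f (f v) = v)
    (P : Finpartition (Finset.univ : Finset V)) (A B : Finset V) (hP : P.parts = {A, B})
    (hAB : Disjoint A B) : Refines (toM f) P ↔ ∀ v ∈ A, f v ∈ A := by
  constructor
  · intro h v hv
    obtain ⟨C, hC, hC'⟩ := h s(v, f v) (by
      simp only [toM, Finset.mem_image, Finset.mem_univ, true_and]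
      exact ⟨v, rfl⟩)
    rw [hP, Finset.mem_insert, Finset.mem_singleton] at hC
    rcases hC with rfl | rfl
    · exact hC' _ (by simp)
    · exfalso
      exact (Finset.disjoint_left.1 hAB hv) (hC' v (by simp))
  · intro h e he
    simp only [toM, Finset.mem_image, Finset.mem_univ, true_and] at he
    obtain ⟨v, rfl⟩ := he
    have hcov : ∀ w : V, w ∈ A ∨ w ∈ B := by
      intro w
      obtain ⟨C, hC, hw⟩ := P.exists_mem (Finset.mem_univ w)
      rw [hP, Finset.mem_insert, Finset.mem_singleton] at hC
      rcases hC with rfl | rfl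
      · exact Or.inl hw
      · exact Or.inr hw
    rcases hcov v with hv | hv
    · refine ⟨A, by rw [hP]; simp, ?_⟩
      intro w hw
      rw [Sym2.mem_iff] at hw
      rcases hw with rfl | rfl
      · exact hv
      · exact h _ hv
    · refine ⟨B, by rw [hP]; simp, ?_⟩
      intro w hw
      rw [Sym2.mem_iff] at hw
      rcases hw with rfl | rfl
      · exact hv
      · rcases hcov (f v) with hfv | hfv
        · exfalso
          have := h _ hfv
          rw [h2] at this
          exact Finset.disjoint_left.1 hAB this hv
        · exact hfv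

/-! ### Bit masks -/

theorem testBit_edge (a b i : ℕ) (hab : a ≠ b) :
    (2 ^ a + 2 ^ b).testBit i = (decide (a = i) || decide (b = i)) := by
  have h : 2 ^ a + 2 ^ b = 2 ^ a ||| 2 ^ b := by
    rcases lt_or_gt_of_ne hab with h | h
    · have := Nat.two_pow_add_eq_or_of_lt (i := b) (b := 2 ^ a)
        (Nat.pow_lt_pow_right (by norm_num) h) 1
      rw [mul_one] at this
      rw [add_comm, this, Nat.or_comm]
    · have := Nat.two_pow_add_eq_or_of_lt (i := a) (b := 2 ^ b)
        (Nat.pow_lt_pow_right (by norm_num) h) 1
      rw [mul_one] at this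
      rw [this]
  rw [h, Nat.testBit_or, Nat.testBit_two_pow, Nat.testBit_two_pow]

theorem okE_iff (s a b : ℕ) (hab : a ≠ b) :
    okE (Nat.land s (2 ^ a + 2 ^ b)) (2 ^ a + 2 ^ b) = true ↔ s.testBit a = s.testBit b := by
  have hl : Nat.land s (2 ^ a + 2 ^ b) = s &&& (2 ^ a + 2 ^ b) := rfl
  rw [hl]
  have hbit : ∀ i, (s &&& (2 ^ a + 2 ^ b)).testBit i =
      (s.testBit i && (decide (a = i) || decide (b = i))) := by
    intro i
    rw [Nat.testBit_and, testBit_edge a b i hab]
  simp only [okE, Bool.or_eq_true, Nat.beq_eq]
  constructor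
  · rintro (h | h)
    · have ha := hbit a
      have hb := hbit b
      rw [h] at ha hb
      simp at ha hb
      rw [ha, hb]
    · have ha := hbit a
      have hb := hbit b
      rw [h, testBit_edge a b _ hab] at ha hb
      simp at ha hb
      rw [ha, hb]
  · intro h
    cases hs : s.testBit a with
    | false =>
      left
      apply Nat.eq_of_testBit_eq
      intro i
      rw [hbit, Nat.zero_testBit]
      by_cases h1 : a = i
      · subst h1; simp [hs]
      · by_cases h2 : b = i
        · subst h2; simp [← h, hs]
        · simp [h1, h2]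
    | true =>
      right
      apply Nat.eq_of_testBit_eq
      intro i
      rw [hbit, testBit_edge a b i hab]
      by_cases h1 : a = i
      · subst h1; simp [hs]
      · by_cases h2 : b = i
        · subst h2; simp [← h, hs]
        · simp [h1, h2]

theorem clB_iff (s : ℕ) (l : List ℕ) :
    clB s l = true ↔ ∀ e ∈ l, okE (Nat.land s e) e = true := by
  induction l with
  | nil => simp [clB]
  | cons e es ih => simp [clB, ih]

theorem cnt_eq (s : ℕ) (l : List (ℕ × List ℕ)) (a : ℕ) :
    cnt s l a = a + l.countP fun d => clB s d.2 := by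
  induction l generalizing a with
  | nil => simp [cnt]
  | cons d ds ih =>
    rw [cnt, List.countP_cons]
    cases h : clB s d.2 with
    | false => simp [ih]
    | true => simp [ih]; omega

/-- The bit mask of a set of vertices. -/
def maskOf (S : Finset (Fin 12)) : ℕ := Nat.ofBits fun i : Fin 12 => decide (i ∈ S)

theorem testBit_maskOf (S : Finset (Fin 12)) (i : Fin 12) :
    (maskOf S).testBit i.val = decide (i ∈ S) := by
  rw [maskOf, Nat.testBit_ofBits_lt _ _ i.isLt]

theorem maskOf_lt (S : Finset (Fin 12)) : maskOf S < 4096 := by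
  have := Nat.ofBits_lt_two_pow (fun i : Fin 12 => decide (i ∈ S))
  simpa [maskOf] using this

theorem popc_maskOf (S : Finset (Fin 12)) : popc (maskOf S) = S.card := by
  have h1 : S.card = (Finset.univ.filter fun i : Fin 12 => i ∈ S).card := by
    congr 1; ext i; simp
  have h2 : popc (maskOf S) = (List.finRange 12).countP fun i => decide (i ∈ S) := by
    rw [popc]
    have : List.range 12 = (List.finRange 12).map fun i => i.val := by decide
    rw [this, List.countP_map]
    congr 1
    funext i
    simp [testBit_maskOf]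
  rw [h1, h2, List.countP_eq_length_filter]
  rfl

theorem closed_iff (d : ℕ × List ℕ) (hd : d ∈ data) (S : Finset (Fin 12)) :
    clB (maskOf S) d.2 = true ↔ ∀ v ∈ S, dec d.1 v ∈ S := by
  obtain ⟨h1, h2⟩ := check_masks d hd
  have hinv := check_inv d hd
  rw [clB_iff]
  constructor
  · intro h v hv
    have h3 := h _ (h1 v)
    have hne : v.val ≠ (dec d.1 v).val := fun e => (hinv v).1 (Fin.ext e.symm)
    rw [okE_iff _ _ _ hne, testBit_maskOf, testBit_maskOf] at h3
    simpa [hv] using h3
  · intro h e he
    obtain ⟨v, rfl⟩ := h2 e he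
    have hne : v.val ≠ (dec d.1 v).val := fun e => (hinv v).1 (Fin.ext e.symm)
    rw [okE_iff _ _ _ hne, testBit_maskOf, testBit_maskOf]
    by_cases hv : v ∈ S
    · simp [hv, h v hv]
    · have : dec d.1 v ∉ S := by
        intro h'
        have := h _ h'
        rw [(hinv v).2] at this
        exact hv this
      simp [hv, this]

/-! ### The design -/

/-- The set of `231` perfect matchings. -/
def D : Finset (Finset (Sym2 (Fin (2 * 6)))) :=
  (data.map fun d => (toM (V := Fin 12) (dec d.1))).toFinset

theorem data_inj : ∀ d ∈ data, ∀ d' ∈ data, toM (V := Fin 12) (dec d.1) = toM (dec d'.1) →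
    d.1 = d'.1 := by
  intro d hd d' hd' h
  have h1 := toM_injective _ _ (fun v => (check_inv d' hd' v).2) h
  rw [← check_enc d hd, ← check_enc d' hd', h1]

theorem nodup_map : (data.map fun d => (toM (V := Fin 12) (dec d.1))).Nodup := by
  have h1 : (data.map Prod.fst).Nodup := check_sorted.imp (fun h => ne_of_lt h)
  have h2 : data.Nodup := List.Nodup.of_map _ h1
  have h3 := List.inj_on_of_nodup_map h1
  refine (List.nodup_map_iff_inj_on h2).2 ?_
  intro d hd d' hd' h
  exact h3 hd hd' (data_inj d hd d' hd' h)

theorem D_card : D.card = 231 := by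
  rw [D, List.toFinset_card_of_nodup nodup_map, List.length_map, data_length]

theorem count_eq (S : Finset (Fin 12)) (hS : S.card = 6) :
    data.countP (fun d => decide (∀ v ∈ S, dec d.1 v ∈ S)) = 5 := by
  have h1 : checkS (maskOf S) = true := by
    have := check_count
    rw [List.all_eq_true] at this
    exact this _ (List.mem_range.2 (maskOf_lt S))
  rw [checkS, popc_maskOf, hS] at h1
  simp only [bne_self_eq_false, Bool.false_or, Nat.beq_eq, cnt_eq, Nat.zero_add] at h1
  rw [← h1]
  apply List.countP_congr
  intro d hd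
  rw [decide_eq_true_iff, closed_iff d hd]

theorem D_index (P : Finpartition (Finset.univ : Finset (Fin (2 * 6))))
    (hP : P.parts.val.map Finset.card = ({3, 3} : Multiset ℕ).map (fun a => 2 * a)) :
    {M | M ∈ D ∧ Refines M P}.ncard = 5 := by
  have hcard : P.parts.card = 2 := by
    have := congrArg Multiset.card hP
    simpa using this
  obtain ⟨A, B, hAB, hparts⟩ := Finset.card_eq_two.1 hcard
  have hA : A.card = 6 := by
    have h1 : A.card ∈ P.parts.val.map Finset.card := by
      refine Multiset.mem_map.2 ⟨A, ?_, rfl⟩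
      have : A ∈ P.parts := by rw [hparts]; simp
      exact this
    rw [hP] at h1
    simpa using h1
  have hdisj : Disjoint A B := by
    have hA' : A ∈ (P.parts : Set (Finset (Fin (2 * 6)))) := by
      rw [hparts]; simp
    have hB' : B ∈ (P.parts : Set (Finset (Fin (2 * 6)))) := by
      rw [hparts]; simp
    exact P.disjoint hA' hB' hAB
  have h1 : {M | M ∈ D ∧ Refines M P} =
      ((((data.filter fun d => decide (∀ v ∈ A, dec d.1 v ∈ A)).map
        fun d => (toM (V := Fin 12) (dec d.1))).toFinset : Finset _) : Set _) := by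
    ext M
    simp only [Set.mem_ofPred_eq, D, List.coe_toFinset, List.mem_toFinset, List.mem_map,
      List.mem_filter, decide_eq_true_eq]
    constructor
    · rintro ⟨⟨d, hd, rfl⟩, hR⟩
      refine ⟨d, ⟨hd, ?_⟩, rfl⟩
      exact (refines_two (V := Fin (2 * 6)) (dec d.1) (fun v => (check_inv d hd v).2) P A B hparts
        hdisj).1 hR
    · rintro ⟨d, ⟨hd, hA⟩, rfl⟩
      refine ⟨⟨d, hd, rfl⟩, ?_⟩
      exact (refines_two (V := Fin (2 * 6)) (dec d.1) (fun v => (check_inv d hd v).2) P A B hparts
        hdisj).2 hA
  rw [h1, Set.ncard_coe_finset, List.toFinset_card_of_nodup, List.length_map,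
    ← List.countP_eq_length_filter]
  · exact count_eq A hA
  · exact List.Nodup.sublist (List.Sublist.map _ List.filter_sublist) nodup_map

/-- **Main result.** There is a non-trivial `(n-3,3)`-factorisation of `K_{2n}` for `n = 6`: it
consists of `231` perfect matchings of `K_12` and has index `5`. -/
theorem result : ∃ (n : ℕ) (D : Finset (Finset (Sym2 (Fin (2 * n))))) (c : ℕ),
    6 ≤ n ∧ n = 6 ∧ c = 5 ∧ D.card = 231 ∧ IsFactorisation n {n - 3, 3} D c ∧
    ∃ M : Finset (Sym2 (Fin (2 * n))), IsPerfectMatching M ∧ M ∉ D := by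
  refine ⟨6, D, 5, le_rfl, rfl, rfl, D_card, ⟨?_, ?_, by norm_num, ?_⟩, ?_⟩
  · rw [← Finset.card_pos, D_card]
    norm_num
  · intro M hM
    simp only [D, List.mem_toFinset, List.mem_map] at hM
    obtain ⟨d, hd, rfl⟩ := hM
    exact isPerfectMatching_toM _ (fun v => (check_inv d hd v).1) (fun v => (check_inv d hd v).2)
  · exact D_index
  · refine ⟨toM (V := Fin 12) (dec 188606631453441), isPerfectMatching_toM _ ?_ ?_, ?_⟩
    · decide +kernel
    · decide +kernel
    · intro hM
      simp only [D, List.mem_toFinset, List.mem_map] at hM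
      obtain ⟨d, hd, h⟩ := hM
      have h1 := toM_injective _ _ (by decide +kernel) h
      have h2 := check_enc d hd
      rw [h1] at h2
      have h3 : enc (dec 188606631453441) = 188606631453441 := by decide +kernel
      rw [h3] at h2
      have h4 : ∀ d ∈ data, d.1 ≠ 188606631453441 := by decide +kernel
      exact h4 d hd h2.symm

end Pool.Agent.Results.MP_3f0bb6_co.IndexFive
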